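import Mathlib

set_option autoImplicit false

/-!
Lower bound for the number of chains needed to represent the divisibility order on `[n]`.
-/

namespace Pool.Agent.helper18

open Finset Real

/-- If every point lies strictly above every set of at most `2 a` other points in one of `d`
coordinates, then `d` is large. -/
lemma chains_lower {α : Type} [Fintype α] [DecidableEq α] (d a : ℕ) {C : Fin d → Type}
    [∀ i, LinearOrder (C i)] (g : ∀ i, α → C i) (ha : a < Fintype.card α)
    (h : ∀ x : α, ∀ A : Finset α, x ∉ A → A.card ≤ 2 * a → ∃ i, ∀ y ∈ A, g i y < g i x) :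
    (a + 1) ^ 2 * (Fintype.card α - d) ≤ d * Fintype.card α := by
  classical
  set m := Fintype.card α with hm
  -- the strict tops
  let Top : Finset α := univ.filter (fun x => ∃ i, ∀ y, y ≠ x → g i y < g i x)
  have hTop : Top.card ≤ d := by
    have hch : ∀ x ∈ Top, ∃ i, ∀ y, y ≠ x → g i y < g i x := fun x hx => (mem_filter.mp hx).2
    rcases Top.eq_empty_or_nonempty with h0 | ⟨x0, hx0⟩
    · rw [h0]; simp
    have : Nonempty (Fin d) := ⟨(hch x0 hx0).choose⟩
    choose! t ht using hch
    have hinj : Set.InjOn t (Top : Set α) := by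
      intro x hx y hy hxy
      by_contra hne
      have h1 := ht x hx y (Ne.symm hne)
      have h2 := ht y hy x hne
      rw [← hxy] at h2
      exact lt_asymm h1 h2
    calc Top.card ≤ (univ : Finset (Fin d)).card :=
          card_le_card_of_injOn t (fun _ _ => mem_coe.mpr (mem_univ _)) hinj
      _ = d := by simp
  let X : Finset α := univ \ Top
  have hX : m - d ≤ X.card := by
    have : X.card = m - Top.card := by
      rw [card_sdiff_of_subset (subset_univ _), card_univ]
    omega
  -- every admissible pair has more than `a` good coordinates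
  have hgood : ∀ x ∈ X, ∀ A : Finset α, x ∉ A → A.card = a →
      a + 1 ≤ (univ.filter (fun i : Fin d => ∀ y ∈ A, g i y < g i x)).card := by
    intro x hx A hxA hA
    by_contra hcon
    push Not at hcon
    have hx' : ∀ i, ∃ y, y ≠ x ∧ ¬ g i y < g i x := by
      intro i
      simp only [X, Top, mem_sdiff, mem_univ, true_and, mem_filter, not_exists, not_forall] at hx
      obtain ⟨y, hy, hlt⟩ := hx i
      exact ⟨y, hy, hlt⟩
    choose y hy1 hy2 using hx'
    let I := univ.filter (fun i : Fin d => ∀ y ∈ A, g i y < g i x)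
    obtain ⟨i, hi⟩ := h x (A ∪ I.image y) (by
      rw [mem_union, mem_image]
      rintro (h1 | ⟨i, -, h1⟩)
      · exact hxA h1
      · exact hy1 i h1) (by
      calc (A ∪ I.image y).card ≤ A.card + (I.image y).card := card_union_le _ _
        _ ≤ a + I.card := by
            rw [hA]; exact Nat.add_le_add_left card_image_le _
        _ ≤ 2 * a := by
            have : I.card < a + 1 := hcon
            omega)
    have hiI : i ∈ I := by
      simp only [I, mem_filter, mem_univ, true_and]
      intro z hz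
      exact hi z (mem_union_left _ hz)
    exact hy2 i (hi (y i) (mem_union_right _ (mem_image_of_mem y hiI)))
  -- the set of pairs
  let Pr : Finset (α × Finset α) :=
    X.biUnion (fun x => (powersetCard a (univ.erase x)).image (fun A => (x, A)))
  have hPr : ∀ p, p ∈ Pr ↔ p.1 ∈ X ∧ p.1 ∉ p.2 ∧ p.2.card = a := by
    rintro ⟨x, A⟩
    simp only [Pr, mem_biUnion, mem_image, mem_powersetCard, Prod.mk.injEq]
    constructor
    · rintro ⟨x', hx', A', ⟨h1, h2⟩, rfl, rfl⟩
      exact ⟨hx', fun h3 => by simpa using h1 h3, h2⟩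
    · rintro ⟨h1, h2, h3⟩
      refine ⟨x, h1, A, ⟨?_, h3⟩, rfl, rfl⟩
      intro z hz
      rw [mem_erase]
      exact ⟨fun h4 => h2 (h4 ▸ hz), mem_univ _⟩
  have hPrcard : Pr.card = X.card * (m - 1).choose a := by
    rw [card_biUnion]
    · rw [sum_congr rfl (g := fun _ => (m - 1).choose a)]
      · simp
      · intro x _
        rw [card_image_of_injective _ (fun A B h => (Prod.mk.inj h).2), card_powersetCard,
          card_erase_of_mem (mem_univ _), card_univ]
    · intro x _ y _ hxy
      rw [Function.onFun, disjoint_left]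
      rintro ⟨u, A⟩ h1 h2
      simp only [mem_image, Prod.mk.injEq] at h1 h2
      obtain ⟨_, _, rfl, _⟩ := h1
      obtain ⟨_, _, rfl, _⟩ := h2
      exact hxy rfl
  -- double counting
  have hdc : ∑ p ∈ Pr, (univ.filter (fun i : Fin d => ∀ y ∈ p.2, g i y < g i p.1)).card
      = ∑ i : Fin d, (Pr.filter (fun p => ∀ y ∈ p.2, g i y < g i p.1)).card := by
    simp_rw [card_filter]
    rw [sum_comm]
  have hlow : (a + 1) * (X.card * (m - 1).choose a)
      ≤ ∑ p ∈ Pr, (univ.filter (fun i : Fin d => ∀ y ∈ p.2, g i y < g i p.1)).card := by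
    rw [← hPrcard, mul_comm, ← smul_eq_mul]
    rw [← sum_const]
    apply sum_le_sum
    intro p hp
    rw [hPr] at hp
    exact hgood p.1 hp.1 p.2 hp.2.1 hp.2.2
  have hup : ∀ i : Fin d, (Pr.filter (fun p => ∀ y ∈ p.2, g i y < g i p.1)).card
      ≤ m.choose (a + 1) := by
    intro i
    have h1 : ((powersetCard (a + 1) (univ : Finset α)).card) = m.choose (a + 1) := by
      rw [card_powersetCard, card_univ]
    rw [← h1]
    apply card_le_card_of_injOn (fun p => insert p.1 p.2)
    · rintro ⟨x, A⟩ hp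
      rw [mem_coe, mem_filter, hPr] at hp
      rw [mem_coe, mem_powersetCard]
      refine ⟨subset_univ _, ?_⟩
      rw [card_insert_of_notMem hp.1.2.1, hp.1.2.2]
    · rintro ⟨x, A⟩ hp ⟨y, B⟩ hq heq
      rw [mem_coe, mem_filter, hPr] at hp hq
      simp only at heq
      obtain ⟨⟨-, hxA, -⟩, hp2⟩ := hp
      obtain ⟨⟨-, hyB, -⟩, hq2⟩ := hq
      simp only at hxA hp2 hyB hq2
      have hxy : x = y := by
        by_contra hne
        have h3 : x ∈ insert y B := heq ▸ mem_insert_self x A
        have h4 : y ∈ insert x A := heq ▸ mem_insert_self y B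
        have h5 : x ∈ B := (mem_insert.mp h3).resolve_left hne
        have h6 : y ∈ A := (mem_insert.mp h4).resolve_left (Ne.symm hne)
        exact lt_asymm (hp2 y h6) (hq2 x h5)
      subst hxy
      have h7 : (insert x A).erase x = (insert x B).erase x := by rw [heq]
      rw [erase_insert hxA, erase_insert hyB] at h7
      rw [h7]
  have hmain : (a + 1) * (X.card * (m - 1).choose a) ≤ d * m.choose (a + 1) := by
    refine hlow.trans ?_
    rw [hdc]
    calc _ ≤ ∑ i : Fin d, m.choose (a + 1) := sum_le_sum fun i _ => hup i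
      _ = _ := by simp
  have hm1 : m = (m - 1) + 1 := by omega
  have hch : m * (m - 1).choose a = m.choose (a + 1) * (a + 1) := by
    have := Nat.add_one_mul_choose_eq (m - 1) a
    rw [← hm1] at this
    exact this
  have hpos : 0 < (m - 1).choose a := Nat.choose_pos (by omega)
  have h8 : (a + 1) ^ 2 * X.card * (m - 1).choose a ≤ d * m * (m - 1).choose a := by
    calc (a + 1) ^ 2 * X.card * (m - 1).choose a
        = ((a + 1) * (X.card * (m - 1).choose a)) * (a + 1) := by ring
      _ ≤ (d * m.choose (a + 1)) * (a + 1) := Nat.mul_le_mul_right _ hmain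
      _ = d * (m.choose (a + 1) * (a + 1)) := by ring
      _ = d * (m * (m - 1).choose a) := by rw [hch]
      _ = _ := by ring
  have h9 := Nat.le_of_mul_le_mul_right h8 hpos
  exact (Nat.mul_le_mul_left _ hX).trans h9

/-- There are at least `k ^ 2` primes up to `k ^ 3`, for large `k`. -/
lemma many_primes {k : ℕ} (hk : 1000 ≤ k) : k ^ 2 ≤ (Nat.primesLE (k ^ 3)).card := by
  rw [Nat.primesLE_card_eq_primeCounting]
  have h := Chebyshev.pi_ge (k ^ 3)
  have hk0 : (1000 : ℝ) ≤ k := by exact_mod_cast hk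
  have hk1 : (0 : ℝ) < k := by linarith
  have hlog2 : (0.69 : ℝ) < Real.log 2 := by linarith [Real.log_two_gt_d9]
  -- log k is small
  have hlogk : Real.log k ≤ k / 100 * 1 := by
    have h1 : Real.log (√(k : ℝ)) ≤ √(k : ℝ) / 32 + Real.log 32 - 1 := by
      have h2 := Real.log_le_sub_one_of_pos (x := √(k : ℝ) / 32) (by positivity)
      rw [Real.log_div (by positivity) (by norm_num)] at h2
      linarith
    have h3 : Real.log (√(k : ℝ)) = Real.log k / 2 := Real.log_sqrt hk1.le
    have h4 : Real.log 32 ≤ 3.47 := by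
      have : Real.log 32 = 5 * Real.log 2 := by
        rw [show (32 : ℝ) = 2 ^ 5 by norm_num, Real.log_pow]; norm_num
      rw [this]; linarith [Real.log_two_lt_d9]
    have h5 : √(k : ℝ) ^ 2 = k := Real.sq_sqrt hk1.le
    have h6 : (31 : ℝ) ≤ √(k : ℝ) := by
      rw [show (31 : ℝ) = √(31 ^ 2) by rw [Real.sqrt_sq (by norm_num)]]
      apply Real.sqrt_le_sqrt
      linarith
    nlinarith
  have hlogk0 : 0 < Real.log k := Real.log_pos (by linarith)
  have h1 : Real.log (((k ^ 3 : ℕ) : ℝ) + 1) ≤ 4 * Real.log k := by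
    have h2 : ((k ^ 3 : ℕ) : ℝ) + 1 ≤ (k : ℝ) ^ 4 := by
      push_cast
      have h3 : (1 : ℝ) ≤ (k : ℝ) ^ 3 := one_le_pow₀ (by linarith)
      have h4 : (k : ℝ) ^ 4 = (k : ℝ) ^ 3 * k := by ring
      rw [h4]
      nlinarith
    calc Real.log (((k ^ 3 : ℕ) : ℝ) + 1) ≤ Real.log ((k : ℝ) ^ 4) :=
          Real.log_le_log (by positivity) h2
      _ = 4 * Real.log k := by rw [Real.log_pow]; norm_num
  have h2 : Real.log ((k ^ 3 : ℕ) : ℝ) = 3 * Real.log k := by
    push_cast
    rw [Real.log_pow]; norm_num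
  have h3 : ((k : ℝ) ^ 2) ≤ (((k ^ 3 : ℕ) : ℝ) * Real.log 2 - Real.log (((k ^ 3 : ℕ) : ℝ) + 1))
      / Real.log ((k ^ 3 : ℕ) : ℝ) := by
    rw [h2, le_div_iff₀ (by linarith)]
    have h4 : (k : ℝ) ^ 2 * (3 * Real.log k) ≤ (k : ℝ) ^ 2 * (3 * (k / 100)) := by
      apply mul_le_mul_of_nonneg_left _ (by positivity)
      linarith
    have h5 : ((k ^ 3 : ℕ) : ℝ) * 0.69 ≤ ((k ^ 3 : ℕ) : ℝ) * Real.log 2 := by gcongr
    push_cast at h5 ⊢
    have h6 : (k : ℝ) ^ 3 = (k : ℝ) ^ 2 * k := by ring
    have h7 : (k : ℝ) ≤ (k : ℝ) ^ 2 * k := by nlinarith [mul_pos hk1 hk1]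
    have h1' : Real.log ((k : ℝ) ^ 3 + 1) ≤ 4 * Real.log k := by exact_mod_cast h1
    nlinarith
  have h4 := h3.trans h
  exact_mod_cast h4

/-- Lower bound for the number of chains. -/
lemma lower_repr {n : ℕ} {lam : ℝ} (hlam : lam = Real.log (Real.log n)) (hlam2 : 2 ≤ lam)
    (hbig : 6000 * lam ≤ Real.log n) {d : ℕ} {C : Fin d → Type} [∀ i, LinearOrder (C i)]
    (f : ℕ → ∀ i, C i)
    (hf : ∀ a b, 1 ≤ a → a ≤ n → 1 ≤ b → b ≤ n → (f a ≤ f b ↔ a ∣ b)) :
    (1 / 72) * (Real.log n / lam) ^ 2 ≤ d := by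
  classical
  set L : ℝ := Real.log n with hL
  have hL0 : 12000 ≤ L := by linarith
  have hlam0 : 0 < lam := by linarith
  have hn0 : n ≠ 0 := by
    rintro rfl
    simp at hL
    linarith
  have hnpos : (0 : ℝ) < n := by positivity
  let a : ℕ := ⌊L / (6 * lam)⌋₊
  have ha1 : (a : ℝ) ≤ L / (6 * lam) := Nat.floor_le (by positivity)
  have ha2 : L / (6 * lam) < a + 1 := Nat.lt_floor_add_one _
  have ha3 : 1000 ≤ a := by
    apply Nat.le_floor
    push_cast
    rw [le_div_iff₀ (by positivity)]
    linarith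
  obtain ⟨s, hs1, hs2⟩ := exists_subset_card_eq (many_primes (k := a + 1) (by omega))
  have hprime : ∀ p ∈ s, p.Prime := fun p hp => Nat.prime_of_mem_primesLE (hs1 hp)
  have hple : ∀ p ∈ s, p ≤ (a + 1) ^ 3 := fun p hp => Nat.le_of_mem_primesLE (hs1 hp)
  have ha1R : (a : ℝ) + 1 ≤ L := by
    have : L / (6 * lam) ≤ L / 12 := by
      apply div_le_div_of_nonneg_left (by linarith) (by norm_num) (by linarith)
    linarith
  -- products of at most `2 a` of these primes are at most `n`
  have hprod : ∀ A : Finset ℕ, A ⊆ s → A.card ≤ 2 * a → ∏ p ∈ A, p ≤ n := by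
    intro A hA hAc
    have h1 : ∏ p ∈ A, p ≤ ((a + 1) ^ 3) ^ A.card := prod_le_pow_card _ _ _
      (fun p hp => hple p (hA hp))
    have h2 : ((a + 1) ^ 3) ^ A.card ≤ ((a + 1) ^ 3) ^ (2 * a) :=
      Nat.pow_le_pow_right (by positivity) hAc
    have h3 : ((((a + 1) ^ 3) ^ (2 * a) : ℕ) : ℝ) ≤ n := by
      rw [← pow_mul]
      push_cast
      rw [← Real.exp_log (by positivity : (0 : ℝ) < ((a : ℝ) + 1) ^ (3 * (2 * a))),
        ← Real.exp_log hnpos]
      apply Real.exp_le_exp.mpr
      rw [Real.log_pow]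
      have h4 : Real.log ((a : ℝ) + 1) ≤ lam := by
        rw [hlam]
        exact Real.log_le_log (by positivity) ha1R
      have h5 : (a : ℝ) * (6 * lam) ≤ L := by
        rwa [le_div_iff₀ (by positivity)] at ha1
      push_cast
      calc (3 * (2 * (a : ℝ))) * Real.log ((a : ℝ) + 1) ≤ (3 * (2 * (a : ℝ))) * lam := by gcongr
        _ = a * (6 * lam) := by ring
        _ ≤ L := h5
    exact h1.trans (h2.trans (by exact_mod_cast h3))
  have hsn : ∀ p ∈ s, p ≤ n := by
    intro p hp
    have := hprod {p} (by simpa using hp) (by simp; omega)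
    simpa using this
  have hcard : Fintype.card s = (a + 1) ^ 2 := by rw [Fintype.card_coe, hs2]
  have key := chains_lower (α := s) d a (C := C) (fun i p => f p i) (by rw [hcard]; nlinarith) (by
    intro x A hxA hA
    let B : Finset ℕ := A.map (Function.Embedding.subtype _)
    have hBs : B ⊆ s := by
      intro p hp
      simp only [B, mem_map, Function.Embedding.coe_subtype] at hp
      obtain ⟨q, -, rfl⟩ := hp
      exact q.2
    have hBc : B.card ≤ 2 * a := by simpa [B] using hA
    have hbn := hprod B hBs hBc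
    have hb1 : 1 ≤ ∏ p ∈ B, p := Nat.one_le_iff_ne_zero.mpr
      (prod_ne_zero_iff.mpr fun p hp => (hprime p (hBs hp)).ne_zero)
    have hnd : ¬ (x : ℕ) ∣ ∏ p ∈ B, p := by
      intro hdvd
      rw [Prime.dvd_finsetProd_iff (Nat.prime_iff.mp (hprime x x.2))] at hdvd
      obtain ⟨q, hq, hxq⟩ := hdvd
      rw [Nat.prime_dvd_prime_iff_eq (hprime x x.2) (hprime q (hBs hq))] at hxq
      simp only [B, mem_map, Function.Embedding.coe_subtype] at hq
      obtain ⟨q', hq', rfl⟩ := hq
      exact hxA (Subtype.ext hxq ▸ hq')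
    have h1 : ¬ f x ≤ f (∏ p ∈ B, p) := by
      rw [hf x _ (hprime x x.2).one_le (hsn x x.2) hb1 hbn]
      exact hnd
    rw [Pi.le_def, not_forall] at h1
    obtain ⟨i, hi⟩ := h1
    rw [not_le] at hi
    refine ⟨i, fun y hy => lt_of_le_of_lt ?_ hi⟩
    have hyB : (y : ℕ) ∈ B := by
      simp only [B, mem_map, Function.Embedding.coe_subtype]
      exact ⟨y, hy, rfl⟩
    have h2 : f y ≤ f (∏ p ∈ B, p) := by
      rw [hf y _ (hprime y y.2).one_le (hsn y y.2) hb1 hbn]
      exact dvd_prod_of_mem (fun p => p) hyB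
    exact h2 i)
  rw [hcard, mul_comm d] at key
  have h1 : (a + 1) ^ 2 - d ≤ d := Nat.le_of_mul_le_mul_left key (by positivity)
  have h2 : (a + 1) ^ 2 ≤ 2 * d := by omega
  have h3 : ((a : ℝ) + 1) ^ 2 ≤ 2 * d := by exact_mod_cast h2
  have h4 : (L / (6 * lam)) ^ 2 ≤ ((a : ℝ) + 1) ^ 2 :=
    pow_le_pow_left₀ (by positivity) ha2.le 2
  have h5 : (L / (6 * lam)) ^ 2 = (1 / 36) * (L / lam) ^ 2 := by
    field_simp; ring
  rw [h5] at h4
  linarith

end Pool.Agent.helper18
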