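import Mathlib

set_option autoImplicit false

/-!
Codes with small pairwise agreement (Reed-Solomon and Gilbert-Varshamov), used to bound the
2-dimension of the divisibility order.
-/

namespace Pool.Agent.helper18

open Finset

/-- Reed-Solomon codes: `M ≤ ℓ ^ D` functions `ZMod ℓ → ZMod ℓ`, two distinct ones agree in
fewer than `D` positions. -/
lemma rs_code (ℓ D M : ℕ) [Fact ℓ.Prime] (hM : M ≤ ℓ ^ D) :
    ∃ c : Fin M → (ZMod ℓ → ZMod ℓ), ∀ a b, a ≠ b →
      (univ.filter (fun x => c a x = c b x)).card < D := by
  classical
  have hcard : Fintype.card (Fin M) ≤ Fintype.card (Fin D → ZMod ℓ) := by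
    simpa [ZMod.card] using hM
  obtain ⟨e⟩ := Function.Embedding.nonempty_of_card_le hcard
  let p : Fin M → Polynomial.degreeLT (ZMod ℓ) D := fun a =>
    (Polynomial.degreeLTEquiv (ZMod ℓ) D).symm (e a)
  have hp : Function.Injective p := fun a b h =>
    e.injective ((Polynomial.degreeLTEquiv (ZMod ℓ) D).symm.injective h)
  refine ⟨fun a x => (p a : Polynomial (ZMod ℓ)).eval x, fun a b hab => ?_⟩
  set f : Polynomial (ZMod ℓ) := (p a : Polynomial (ZMod ℓ)) - p b with hf
  have hf0 : f ≠ 0 := by
    intro h
    apply hab
    apply hp
    apply Subtype.ext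
    exact sub_eq_zero.mp h
  have hdeg : f.degree < D := by
    have h1 := (p a).2
    have h2 := (p b).2
    exact Polynomial.mem_degreeLT.mp (Submodule.sub_mem _ h1 h2)
  have hnat : f.natDegree < D := (Polynomial.natDegree_lt_iff_degree_lt hf0).mpr hdeg
  have hsub : (univ.filter (fun x => (p a : Polynomial (ZMod ℓ)).eval x
      = (p b : Polynomial (ZMod ℓ)).eval x)) ⊆ f.roots.toFinset := by
    intro x hx
    simp only [mem_filter, mem_univ, true_and] at hx
    rw [Multiset.mem_toFinset, Polynomial.mem_roots hf0]
    simp [hf, Polynomial.IsRoot, hx]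
  calc _ ≤ f.roots.toFinset.card := card_le_card hsub
    _ ≤ Multiset.card f.roots := Multiset.toFinset_card_le _
    _ ≤ f.natDegree := Polynomial.card_roots' f
    _ < D := hnat

/-- The number of words agreeing with a given word on a given set of positions. -/
lemma card_agree {N Q : ℕ} (s : Fin N → Fin Q) (A : Finset (Fin N)) :
    (univ.filter (fun f : Fin N → Fin Q => ∀ i ∈ A, f i = s i)).card = Q ^ (N - A.card) := by
  classical
  have : (univ.filter (fun f : Fin N → Fin Q => ∀ i ∈ A, f i = s i))
      = Fintype.piFinset (fun i => if i ∈ A then {s i} else univ) := by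
    ext f
    simp only [mem_filter, mem_univ, true_and, Fintype.mem_piFinset]
    constructor
    · intro h i
      by_cases hi : i ∈ A
      · simp [hi, h i hi]
      · simp [hi]
    · intro h i hi
      simpa [hi] using h i
  rw [this, Fintype.card_piFinset]
  have h2 : ∀ i : Fin N, (if i ∈ A then ({s i} : Finset (Fin Q)) else univ).card
      = if i ∈ A then 1 else Q := by
    intro i
    split_ifs <;> simp
  simp_rw [h2]
  rw [prod_ite]
  simp only [prod_const_one, one_mul, prod_const]
  congr 1
  rw [filter_not, card_sdiff_of_subset (filter_subset _ _), filter_mem_eq_inter, univ_inter]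
  simp

/-- `K ^ K ≤ 3 ^ K * K !`. -/
lemma pow_self_le (K : ℕ) : K ^ K ≤ 3 ^ K * K.factorial := by
  have h := Real.pow_div_factorial_le_exp (K : ℝ) (Nat.cast_nonneg K) K
  have h3 : Real.exp K ≤ 3 ^ K := by
    have : Real.exp K = Real.exp 1 ^ K := by
      rw [← Real.exp_nat_mul]; simp
    rw [this]
    exact pow_le_pow_left₀ (Real.exp_pos _).le (by linarith [Real.exp_one_lt_d9]) _
  have hf : (0 : ℝ) < K.factorial := by exact_mod_cast K.factorial_pos
  have : (K : ℝ) ^ K ≤ 3 ^ K * K.factorial := by
    rw [div_le_iff₀ hf] at h
    calc (K : ℝ) ^ K ≤ Real.exp K * K.factorial := h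
      _ ≤ _ := by gcongr
  exact_mod_cast this

/-- Gilbert-Varshamov type codes. -/
lemma gv_code (r K M : ℕ) (hr : 1 ≤ r) (hM : M ≤ 2 ^ K) :
    ∃ c : Fin M → (Fin (r * K) → Fin (6 * r)), ∀ a b, a ≠ b →
      (univ.filter (fun x => c a x = c b x)).card < K := by
  classical
  -- a maximal family
  have key : ∀ m, m ≤ 2 ^ K → ∃ S : Finset (Fin (r * K) → Fin (6 * r)), S.card = m ∧
      ∀ f ∈ S, ∀ g ∈ S, f ≠ g → (univ.filter (fun x => f x = g x)).card < K := by
    intro m
    induction m with
    | zero => intro _; exact ⟨∅, by simp, by simp⟩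
    | succ m ih =>
      intro hm
      obtain ⟨S, hS, hS2⟩ := ih (by omega)
      -- words that agree with a member of S in at least K positions
      let bad : (Fin (r * K) → Fin (6 * r)) → Finset (Fin (r * K) → Fin (6 * r)) := fun s =>
        (powersetCard K univ).biUnion fun A => univ.filter (fun f => ∀ i ∈ A, f i = s i)
      have hbad : ∀ s, (bad s).card ≤ (r * K).choose K * (6 * r) ^ (r * K - K) := by
        intro s
        calc (bad s).card ≤ ∑ A ∈ powersetCard K univ,
              (univ.filter (fun f : Fin (r * K) → Fin (6 * r) => ∀ i ∈ A, f i = s i)).card :=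
              card_biUnion_le
          _ = ∑ A ∈ powersetCard K (univ : Finset (Fin (r * K))), (6 * r) ^ (r * K - K) := by
              refine sum_congr rfl fun A hA => ?_
              rw [card_agree, (mem_powersetCard.mp hA).2]
          _ = _ := by simp [card_powersetCard]
      have htot : (S.biUnion bad).card < (univ : Finset (Fin (r * K) → Fin (6 * r))).card := by
        have h1 : (S.biUnion bad).card ≤ m * ((r * K).choose K * (6 * r) ^ (r * K - K)) := by
          calc (S.biUnion bad).card ≤ ∑ s ∈ S, (bad s).card := card_biUnion_le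
            _ ≤ ∑ s ∈ S, (r * K).choose K * (6 * r) ^ (r * K - K) := sum_le_sum fun s _ => hbad s
            _ = _ := by simp [hS]
        have h2 : (univ : Finset (Fin (r * K) → Fin (6 * r))).card = (6 * r) ^ (r * K) := by
          simp
        rw [h2]
        refine lt_of_le_of_lt h1 ?_
        have hKle : K ≤ r * K := Nat.le_mul_of_pos_left K (by omega)
        have h3 : (6 * r) ^ (r * K) = (6 * r) ^ K * (6 * r) ^ (r * K - K) := by
          rw [← pow_add]; congr 1; omega
        have h4 : (r * K).choose K ≤ (3 * r) ^ K := by
          have h5 : (r * K).choose K * K.factorial ≤ (r * K) ^ K := by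
            have := Nat.choose_le_pow_div (α := ℝ) K (r * K)
            have hf : (0 : ℝ) < K.factorial := by exact_mod_cast K.factorial_pos
            rw [le_div_iff₀ hf] at this
            exact_mod_cast this
          have h6 : (r * K) ^ K ≤ (3 * r) ^ K * K.factorial := by
            rw [mul_pow, mul_pow]
            calc r ^ K * K ^ K ≤ r ^ K * (3 ^ K * K.factorial) :=
                  Nat.mul_le_mul_left _ (pow_self_le K)
              _ = _ := by ring
          exact Nat.le_of_mul_le_mul_right (h5.trans h6) K.factorial_pos
        have hpos : 0 < (6 * r) ^ (r * K - K) := pow_pos (by omega) _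
        have hpos2 : 0 < (3 * r) ^ K := pow_pos (by omega) _
        have h7 : m * (r * K).choose K < (6 * r) ^ K := by
          calc m * (r * K).choose K ≤ m * (3 * r) ^ K := Nat.mul_le_mul_left _ h4
            _ < 2 ^ K * (3 * r) ^ K := by
              apply Nat.mul_lt_mul_of_pos_right _ hpos2
              omega
            _ = (6 * r) ^ K := by rw [← mul_pow]; congr 1; ring
        rw [h3, ← mul_assoc]
        exact Nat.mul_lt_mul_of_pos_right h7 hpos
      obtain ⟨f, -, hf⟩ := exists_mem_notMem_of_card_lt_card htot
      have hfS : ∀ s ∈ S, (univ.filter (fun x => f x = s x)).card < K := by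
        intro s hs
        by_contra hcon
        push Not at hcon
        obtain ⟨A, hA1, hA2⟩ := exists_subset_card_eq hcon
        apply hf
        simp only [mem_biUnion]
        refine ⟨s, hs, ?_⟩
        simp only [bad, mem_biUnion]
        refine ⟨A, mem_powersetCard.mpr ⟨subset_univ _, hA2⟩, ?_⟩
        simp only [mem_filter, mem_univ, true_and]
        intro i hi
        have := hA1 hi
        simpa using this
      by_cases hmem : f ∈ S
      · -- then K ≤ r K = agreement of f with itself is < K, contradiction
        have := hfS f hmem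
        simp only [filter_true, card_univ, Fintype.card_fin] at this
        exact absurd this (not_lt.mpr (Nat.le_mul_of_pos_left K (by omega)))
      · refine ⟨insert f S, by rw [card_insert_of_notMem hmem, hS], ?_⟩
        intro g hg h hh hne
        rw [mem_insert] at hg hh
        rcases hg with rfl | hg <;> rcases hh with rfl | hh
        · exact absurd rfl hne
        · exact hfS h hh
        · have := hfS g hg
          simpa [eq_comm] using this
        · exact hS2 g hg h hh hne
  obtain ⟨S, hS, hS2⟩ := key M hM
  let e := (S.equivFinOfCardEq hS).symm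
  refine ⟨fun a => (e a : Fin (r * K) → Fin (6 * r)), fun a b hab => ?_⟩
  exact hS2 _ (e a).2 _ (e b).2 (fun h => hab (e.injective (Subtype.ext h)))

end Pool.Agent.helper18
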