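import Mathlib
import Pool.Agent.helper18.DivCodes

set_option autoImplicit false

/-!
Separating systems for primes versus integers up to `N`.
-/

namespace Pool.Agent.helper18

open Finset

/-- `Sep P N d`: there is a ground set `V` with at most `d` elements and a set `S q ⊆ V` for every
number `q` such that for every prime `q ≤ N` with `P q` and every `1 ≤ b ≤ N` not divisible by `q`
some `v ∈ S q` lies in no `S q'` with `q'` a prime factor of `b` satisfying `P`. -/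
def Sep (P : ℕ → Prop) (N d : ℕ) : Prop :=
  ∃ (V : Type) (_ : Fintype V) (S : ℕ → Set V), Fintype.card V ≤ d ∧
    ∀ q b, P q → q.Prime → q ≤ N → b ≠ 0 → b ≤ N → ¬ q ∣ b →
      ∃ v ∈ S q, ∀ q' ∈ b.primeFactors, P q' → v ∉ S q'

lemma Sep.mono {P : ℕ → Prop} {N d e : ℕ} (h : Sep P N d) (hde : d ≤ e) : Sep P N e := by
  obtain ⟨V, i1, S, h1, h2⟩ := h
  exact ⟨V, i1, S, h1.trans hde, h2⟩

lemma Sep.of_empty {P : ℕ → Prop} {N : ℕ} (h : ∀ q, P q → q.Prime → q ≤ N → False) :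
    Sep P N 0 := by
  refine ⟨Empty, inferInstance, fun _ => ∅, by simp, ?_⟩
  intro q b h1 h2 h3
  exact (h q h1 h2 h3).elim

lemma Sep.imp {P Q : ℕ → Prop} {N d : ℕ} (h : Sep P N d)
    (hPQ : ∀ q, q.Prime → q ≤ N → (Q q ↔ P q)) : Sep Q N d := by
  obtain ⟨V, i1, S, h1, h2⟩ := h
  refine ⟨V, i1, S, h1, ?_⟩
  intro q b hq hp hqN hb hbN hqb
  obtain ⟨v, hv, hv'⟩ := h2 q b ((hPQ q hp hqN).mp hq) hp hqN hb hbN hqb
  refine ⟨v, hv, fun q' hq' hQ' => hv' q' hq' ?_⟩
  have := Nat.le_of_mem_primeFactors hq'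
  exact (hPQ q' (Nat.prime_of_mem_primeFactors hq') (this.trans hbN)).mp hQ'

lemma Sep.or {P Q : ℕ → Prop} {N d e : ℕ} (h : Sep P N d) (h' : Sep Q N e) :
    Sep (fun q => P q ∨ Q q) N (d + e) := by
  classical
  obtain ⟨V, i1, S, h1, h2⟩ := h
  obtain ⟨V', i1', S', h1', h2'⟩ := h'
  refine ⟨V ⊕ V', inferInstance, fun q => {v | Sum.elim (fun x => P q ∧ x ∈ S q)
    (fun x => Q q ∧ x ∈ S' q) v}, ?_, ?_⟩
  · rw [Fintype.card_sum]; omega
  · intro q b hq hp hqN hb hbN hqb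
    rcases hq with hq | hq
    · obtain ⟨v, hv, hv'⟩ := h2 q b hq hp hqN hb hbN hqb
      refine ⟨Sum.inl v, ⟨hq, hv⟩, ?_⟩
      rintro q' hq' - ⟨h3, h4⟩
      exact hv' q' hq' h3 h4
    · obtain ⟨v, hv, hv'⟩ := h2' q b hq hp hqN hb hbN hqb
      refine ⟨Sum.inr v, ⟨hq, hv⟩, ?_⟩
      rintro q' hq' - ⟨h3, h4⟩
      exact hv' q' hq' h3 h4

lemma Sep.range {P : ℕ → ℕ → Prop} {N : ℕ} {d : ℕ → ℕ} (J : ℕ)
    (h : ∀ j < J, Sep (P j) N (d j)) :
    Sep (fun q => ∃ j < J, P j q) N (∑ j ∈ range J, d j) := by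
  induction J with
  | zero =>
    rw [sum_range_zero]
    apply Sep.of_empty
    rintro q ⟨j, hj, -⟩
    omega
  | succ J ih =>
    rw [sum_range_succ]
    refine ((ih (fun j hj => h j (by omega))).or (h J (by omega))).imp fun q _ _ => ?_
    constructor
    · rintro ⟨j, hj, hP⟩
      rcases Nat.lt_succ_iff_lt_or_eq.mp hj with hj | rfl
      · exact Or.inl ⟨j, hj, hP⟩
      · exact Or.inr hP
    · rintro (⟨j, hj, hP⟩ | hP)
      · exact ⟨j, by omega, hP⟩
      · exact ⟨J, by omega, hP⟩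

/-- singletons for small primes -/
lemma Sep.small (N k : ℕ) : Sep (fun q => q ≤ k) N (k + 1) := by
  refine ⟨Fin (k + 1), inferInstance, fun q => {v | v.val = q}, by simp, ?_⟩
  intro q b hq hp hqN hb hbN hqb
  refine ⟨⟨q, by omega⟩, rfl, ?_⟩
  rintro q' hq' - h
  simp only [Set.mem_ofPred_eq] at h
  exact hqb (h ▸ Nat.dvd_of_mem_primeFactors hq')

lemma Sep.of_code {P : ℕ → Prop} {N M K r : ℕ} {X Q : Type} [Fintype X] [Fintype Q]
    [DecidableEq Q] (c : Fin M → X → Q)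
    (hc : ∀ a b, a ≠ b → (univ.filter (fun x => c a x = c b x)).card < K)
    (hX : r * (K - 1) < Fintype.card X)
    (hP1 : ∀ q, P q → q.Prime → q ≤ N → q < M)
    (hP2 : ∀ b ≠ 0, b ≤ N → {q ∈ (b.primeFactors : Set ℕ) | P q}.ncard ≤ r) :
    Sep P N (Fintype.card X * Fintype.card Q) := by
  classical
  refine ⟨X × Q, inferInstance, fun q => {v | ∃ h : q < M, c ⟨q, h⟩ v.1 = v.2},
    by rw [Fintype.card_prod], ?_⟩
  intro q b hq hp hqN hb hbN hqb
  by_contra hcon
  push Not at hcon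
  have hqM := hP1 q hq hp hqN
  -- the relevant prime factors
  let B : Finset ℕ := b.primeFactors.filter P
  have hB : B.card ≤ r := by
    have := hP2 b hb hbN
    have h2 : {q ∈ (b.primeFactors : Set ℕ) | P q} = (B : Set ℕ) := by
      ext x; simp [B]
    rw [h2, Set.ncard_coe_finset] at this
    exact this
  let agree : ℕ → Finset X := fun q' =>
    univ.filter (fun x => ∃ h : q' < M, c ⟨q', h⟩ x = c ⟨q, hqM⟩ x)
  have hcov : (univ : Finset X) ⊆ B.biUnion agree := by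
    intro x _
    obtain ⟨q', hq', hP', h⟩ := hcon (x, c ⟨q, hqM⟩ x) ⟨hqM, rfl⟩
    rw [mem_biUnion]
    refine ⟨q', by simp only [B, mem_filter]; exact ⟨hq', hP'⟩, ?_⟩
    simp only [agree, mem_filter, mem_univ, true_and]
    exact h
  have hag : ∀ q' ∈ B, (agree q').card ≤ K - 1 := by
    intro q' hq'
    simp only [B, mem_filter] at hq'
    have hne : q' ≠ q := by
      rintro rfl
      exact hqb (Nat.dvd_of_mem_primeFactors hq'.1)
    by_cases hM' : q' < M
    · have h1 := hc ⟨q', hM'⟩ ⟨q, hqM⟩ (by simpa using hne)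
      have h2 : agree q' = univ.filter (fun x => c ⟨q', hM'⟩ x = c ⟨q, hqM⟩ x) := by
        ext x
        simp [agree, hM']
      rw [h2]
      omega
    · have h2 : agree q' = ∅ := by
        ext x
        simp [agree, hM']
      rw [h2]; simp
  have : Fintype.card X ≤ r * (K - 1) := by
    calc Fintype.card X = (univ : Finset X).card := rfl
      _ ≤ (B.biUnion agree).card := card_le_card hcov
      _ ≤ ∑ q' ∈ B, (agree q').card := card_biUnion_le
      _ ≤ ∑ q' ∈ B, (K - 1) := sum_le_sum hag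
      _ = B.card * (K - 1) := by simp
      _ ≤ r * (K - 1) := Nat.mul_le_mul_right _ hB
  omega

end Pool.Agent.helper18
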