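import Mathlib
import Pool.Agent.helper18.DivSep

set_option autoImplicit false

/-!
Numerical part: a separating system for all primes up to `N ≤ e ^ x` on
`O((x / log x) ^ 2 * log log x)` points.
-/

namespace Pool.Agent.helper18

open Finset Real

lemma card_large_factors {x y : ℝ} (hy : 0 < y) {b : ℕ} {P : ℕ → Prop} (hb : b ≠ 0)
    (hN : (b : ℝ) ≤ exp x) (hP : ∀ q, q.Prime → P q → y ≤ Real.log q) :
    ({q ∈ (b.primeFactors : Set ℕ) | P q}.ncard : ℝ) ≤ x / y := by
  classical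
  let B : Finset ℕ := b.primeFactors.filter P
  have h2 : {q ∈ (b.primeFactors : Set ℕ) | P q} = (B : Set ℕ) := by
    ext x; simp [B]
  rw [h2, Set.ncard_coe_finset, le_div_iff₀ hy]
  have h3 : ∏ q ∈ B, q ≤ b :=
    le_trans (prod_le_prod_of_subset_of_one_le' (filter_subset _ _)
      (fun q hq _ => (Nat.prime_of_mem_primeFactors hq).one_le))
      (Nat.le_of_dvd (Nat.pos_of_ne_zero hb) (Nat.prod_primeFactors_dvd b))
  have h4 : ∑ q ∈ B, Real.log q ≤ x := by
    rw [← Real.log_prod]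
    · have h5 : ((∏ q ∈ B, q : ℕ) : ℝ) ≤ exp x := le_trans (by exact_mod_cast h3) hN
      have h6 : (0 : ℝ) < ((∏ q ∈ B, q : ℕ) : ℝ) := by
        exact_mod_cast prod_pos fun q hq =>
          (Nat.prime_of_mem_primeFactors (mem_filter.mp hq).1).pos
      have := Real.log_le_log h6 h5
      rw [Real.log_exp] at this
      push_cast at this
      exact this
    · intro q hq
      exact_mod_cast (Nat.prime_of_mem_primeFactors (mem_filter.mp hq).1).ne_zero
  calc (B.card : ℝ) * y = ∑ q ∈ B, y := by simp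
    _ ≤ ∑ q ∈ B, Real.log q := sum_le_sum fun q hq => hP q
        (Nat.prime_of_mem_primeFactors (mem_filter.mp hq).1) (mem_filter.mp hq).2
    _ ≤ x := h4

lemma sep_rs {N ℓ j : ℕ} {x lam : ℝ} (hlam : 0 < lam) (hN : (N : ℝ) ≤ exp x)
    (hx : 0 ≤ x) (hℓ : ℓ.Prime) (h4T : 4 * (x / lam) < ℓ) (hsize : exp lam + 1 ≤ (ℓ : ℝ) ^ 2) :
    Sep (fun q => 2 ^ j * lam < Real.log q ∧ Real.log q ≤ 2 ^ (j + 1) * lam) N (ℓ * ℓ) := by
  have : Fact ℓ.Prime := ⟨hℓ⟩
  let D : ℕ := 2 ^ (j + 2)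
  let M : ℕ := ⌊exp (2 ^ (j + 1) * lam)⌋₊ + 1
  have hM : M ≤ ℓ ^ D := by
    have h1 : (M : ℝ) ≤ (ℓ : ℝ) ^ D := by
      calc (M : ℝ) ≤ exp (2 ^ (j + 1) * lam) + 1 := by
            simp only [M]; push_cast
            linarith [Nat.floor_le (exp_pos (2 ^ (j + 1) * lam)).le]
        _ = (exp lam) ^ (2 ^ (j + 1)) + 1 ^ (2 ^ (j + 1)) := by
            rw [← Real.exp_nat_mul]; push_cast; simp
        _ ≤ (exp lam + 1) ^ (2 ^ (j + 1)) :=
            pow_add_pow_le (exp_pos _).le (by norm_num) (by positivity)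
        _ ≤ ((ℓ : ℝ) ^ 2) ^ (2 ^ (j + 1)) :=
            pow_le_pow_left₀ (by positivity) hsize _
        _ = (ℓ : ℝ) ^ D := by
            rw [← pow_mul]; congr 1; simp only [D]; ring
    exact_mod_cast h1
  obtain ⟨c, hc⟩ := rs_code ℓ D M hM
  have hpos : (0 : ℝ) < 2 ^ j * lam := by positivity
  have := Sep.of_code (P := fun q => 2 ^ j * lam < Real.log q ∧ Real.log q ≤ 2 ^ (j + 1) * lam)
    (N := N) (r := ⌊x / (2 ^ j * lam)⌋₊) c hc ?_ ?_ ?_
  · rwa [ZMod.card] at this
  · rw [ZMod.card]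
    have h1 : (⌊x / (2 ^ j * lam)⌋₊ : ℝ) ≤ x / (2 ^ j * lam) :=
      Nat.floor_le (div_nonneg hx hpos.le)
    have h2 : ((⌊x / (2 ^ j * lam)⌋₊ * (D - 1) : ℕ) : ℝ) < ℓ := by
      refine lt_of_le_of_lt ?_ h4T
      push_cast
      calc (⌊x / (2 ^ j * lam)⌋₊ : ℝ) * ((D - 1 : ℕ) : ℝ)
          ≤ x / (2 ^ j * lam) * (D : ℝ) := by
            apply mul_le_mul h1 _ (Nat.cast_nonneg _) (div_nonneg hx hpos.le)
            exact_mod_cast Nat.sub_le D 1
        _ = 4 * (x / lam) := by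
            simp only [D]; push_cast
            rw [pow_add]
            field_simp
            norm_num
    exact_mod_cast h2
  · rintro q ⟨-, h2⟩ hq hqN
    have hq0 : (0 : ℝ) < q := by exact_mod_cast hq.pos
    have h3 : (q : ℝ) ≤ exp (2 ^ (j + 1) * lam) := by
      rw [← Real.log_le_iff_le_exp hq0]
      exact h2
    have h4 : q ≤ ⌊exp (2 ^ (j + 1) * lam)⌋₊ := Nat.le_floor h3
    simp only [M]; omega
  · intro b hb hbN
    apply Nat.le_floor
    apply card_large_factors hpos hb (le_trans (by exact_mod_cast hbN) hN)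
    rintro q hq ⟨h1, -⟩
    exact h1.le

lemma sep_gv {N : ℕ} (j : ℕ) {x lam : ℝ} (hlam : 1 ≤ lam) (hN : (N : ℝ) ≤ exp x)
    (hx : 0 ≤ x) :
    ∃ d : ℕ, Sep (fun q => 2 ^ j * lam < Real.log q ∧ Real.log q ≤ 2 ^ (j + 1) * lam) N d ∧
      (d : ℝ) ≤ 30 * (x / lam) ^ 2 * lam / 2 ^ j := by
  have hlam0 : 0 < lam := by linarith
  have hpos : (0 : ℝ) < 2 ^ j * lam := by positivity
  have h2j : (1 : ℝ) ≤ 2 ^ j := one_le_pow₀ (by norm_num)
  rcases lt_or_ge x (2 ^ j * lam) with hlt | hge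
  · refine ⟨0, Sep.of_empty ?_, ?_⟩
    · rintro q ⟨h1, -⟩ hq hqN
      have hq0 : (0 : ℝ) < q := by exact_mod_cast hq.pos
      have h3 : (q : ℝ) ≤ exp x := le_trans (by exact_mod_cast hqN) hN
      rw [← Real.log_le_iff_le_exp hq0] at h3
      linarith
    · push_cast; positivity
  let r : ℕ := ⌊x / (2 ^ j * lam)⌋₊
  have hr1 : 1 ≤ r := by
    apply Nat.le_floor
    rw [Nat.cast_one, le_div_iff₀ hpos]
    linarith
  let K : ℕ := ⌈2 ^ (j + 1) * lam / Real.log 2⌉₊ + 1
  have hlog2 : (0.69 : ℝ) < Real.log 2 := by linarith [Real.log_two_gt_d9]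
  have hlog2' : (0 : ℝ) < Real.log 2 := by linarith
  let M : ℕ := ⌊exp (2 ^ (j + 1) * lam)⌋₊ + 1
  have hM : M ≤ 2 ^ K := by
    have h1 : (M : ℝ) ≤ (2 : ℝ) ^ K := by
      have h0 : (1 : ℝ) ≤ exp (2 ^ (j + 1) * lam) := Real.one_le_exp (by positivity)
      calc (M : ℝ) ≤ exp (2 ^ (j + 1) * lam) + 1 := by
            simp only [M]; push_cast
            linarith [Nat.floor_le (exp_pos (2 ^ (j + 1) * lam)).le]
        _ ≤ exp (2 ^ (j + 1) * lam) * 2 := by linarith
        _ = exp (2 ^ (j + 1) * lam + Real.log 2) := by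
            rw [Real.exp_add, Real.exp_log (by norm_num)]
        _ ≤ exp (K * Real.log 2) := by
            apply Real.exp_le_exp.mpr
            simp only [K]; push_cast
            have := Nat.le_ceil (2 ^ (j + 1) * lam / Real.log 2)
            rw [div_le_iff₀ hlog2'] at this
            linarith
        _ = (2 : ℝ) ^ K := by
            rw [Real.exp_nat_mul, Real.exp_log (by norm_num)]
    exact_mod_cast h1
  have hK : (K : ℝ) ≤ 5 * (2 ^ j * lam) := by
    simp only [K]; push_cast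
    have h1 := (Nat.ceil_lt_add_one (a := 2 ^ (j + 1) * lam / Real.log 2) (by positivity)).le
    have h2 : 2 ^ (j + 1) * lam / Real.log 2 ≤ 2 ^ (j + 1) * lam / 0.69 := by
      gcongr
    have h3 : (2 : ℝ) ^ (j + 1) * lam / 0.69 ≤ 3 * (2 ^ j * lam) := by
      rw [div_le_iff₀ (by norm_num), pow_succ]
      nlinarith
    have h4 : (1 : ℝ) ≤ 2 ^ j * lam := by nlinarith
    linarith
  obtain ⟨c, hc⟩ := gv_code r K M hr1 hM
  refine ⟨_, Sep.of_code (P := fun q => 2 ^ j * lam < Real.log q ∧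
    Real.log q ≤ 2 ^ (j + 1) * lam) (N := N) (r := r) c hc ?_ ?_ ?_, ?_⟩
  · simp only [Fintype.card_fin]
    apply Nat.mul_lt_mul_of_pos_left _ (by omega)
    simp only [K]; omega
  · rintro q ⟨-, h2⟩ hq hqN
    have hq0 : (0 : ℝ) < q := by exact_mod_cast hq.pos
    have h3 : (q : ℝ) ≤ exp (2 ^ (j + 1) * lam) := by
      rw [← Real.log_le_iff_le_exp hq0]
      exact h2
    have h4 : q ≤ ⌊exp (2 ^ (j + 1) * lam)⌋₊ := Nat.le_floor h3
    simp only [M]; omega
  · intro b hb hbN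
    apply Nat.le_floor
    apply card_large_factors hpos hb (le_trans (by exact_mod_cast hbN) hN)
    rintro q hq ⟨h1, -⟩
    exact h1.le
  · simp only [Fintype.card_fin]
    push_cast
    have h1 : (r : ℝ) ≤ x / (2 ^ j * lam) := Nat.floor_le (div_nonneg hx hpos.le)
    have h0 : (0 : ℝ) ≤ x / (2 ^ j * lam) := div_nonneg hx hpos.le
    calc (r : ℝ) * K * (6 * r) = 6 * (r : ℝ) ^ 2 * K := by ring
      _ ≤ 6 * (x / (2 ^ j * lam)) ^ 2 * (5 * (2 ^ j * lam)) := by gcongr
      _ = 30 * (x / lam) ^ 2 * lam / 2 ^ j := by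
        field_simp
        ring

/-- `log y ≤ 2 * sqrt y` -/
lemma log_le_two_sqrt {y : ℝ} (hy : 0 < y) : Real.log y ≤ 2 * √y := by
  have h1 : Real.log (√y) ≤ √y := by
    have := Real.log_le_sub_one_of_pos (Real.sqrt_pos.mpr hy)
    linarith
  have h2 : Real.log (√y) = Real.log y / 2 := Real.log_sqrt hy.le
  linarith

lemma exists_dyadic {lam y : ℝ} (J : ℕ) (h1 : lam < y) (h2 : y ≤ 2 ^ J * lam) :
    ∃ j < J, 2 ^ j * lam < y ∧ y ≤ 2 ^ (j + 1) * lam := by
  induction J with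
  | zero => simp at h2; linarith
  | succ J ih =>
    rcases le_or_gt y (2 ^ J * lam) with h | h
    · obtain ⟨j, hj, h3⟩ := ih h
      exact ⟨j, by omega, h3⟩
    · exact ⟨J, by omega, h, h2⟩

lemma sep_main {x : ℝ} (hx : exp (exp 1) ≤ x) {N : ℕ} (hN : (N : ℝ) ≤ exp x) :
    ∃ d : ℕ, Sep (fun _ => True) N d ∧
      (d : ℝ) ≤ 400 * (x / Real.log x) ^ 2 * Real.log (Real.log x) := by
  set lam : ℝ := Real.log x with hlamdef
  set T : ℝ := x / lam with hTdef
  have hx0 : 0 < x := lt_of_lt_of_le (exp_pos _) hx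
  have hlam1 : exp 1 ≤ lam := by
    rw [hlamdef, Real.le_log_iff_exp_le hx0]
    exact hx
  have he : (2.7 : ℝ) < exp 1 := by linarith [Real.exp_one_gt_d9]
  have hlam2 : (2.7 : ℝ) < lam := by linarith
  have hlam0 : 0 < lam := by linarith
  have hloglam : 1 ≤ Real.log lam := by
    rw [Real.le_log_iff_exp_le hlam0]; exact hlam1
  have hexplam : exp lam = x := Real.exp_log hx0
  have hx1 : 1 ≤ x := by rw [← hexplam]; exact Real.one_le_exp hlam0.le
  have hT1 : 1 ≤ T := by
    rw [hTdef, one_le_div hlam0]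
    have := Real.log_le_sub_one_of_pos hx0
    linarith
  have hT0 : 0 < T := by linarith
  -- the prime
  obtain ⟨ℓ, hℓ, hℓ1, hℓ2⟩ := Nat.exists_prime_lt_and_le_two_mul ⌈4 * T⌉₊ (by
    apply Nat.ceil_pos.mpr _ |>.ne'
    linarith)
  have h4T : 4 * T < ℓ := lt_of_le_of_lt (Nat.le_ceil _) (by exact_mod_cast hℓ1)
  have hℓT : (ℓ : ℝ) ≤ 10 * T := by
    have h1 : (ℓ : ℝ) ≤ 2 * ⌈4 * T⌉₊ := by exact_mod_cast hℓ2
    have h2 := (Nat.ceil_lt_add_one (a := 4 * T) (by linarith)).le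
    linarith
  have hsize : exp lam + 1 ≤ (ℓ : ℝ) ^ 2 := by
    rw [hexplam]
    have h1 : lam ^ 2 ≤ 4 * x := by
      have h2 := log_le_two_sqrt hx0
      have h3 : lam ^ 2 ≤ (2 * √x) ^ 2 := pow_le_pow_left₀ hlam0.le h2 2
      rw [mul_pow, Real.sq_sqrt hx0.le] at h3
      linarith
    have h2 : x + 1 ≤ (4 * T) ^ 2 := by
      rw [hTdef, mul_pow, div_pow, ← mul_div_assoc, le_div_iff₀ (by positivity)]
      nlinarith
    calc x + 1 ≤ (4 * T) ^ 2 := h2
      _ ≤ (ℓ : ℝ) ^ 2 := pow_le_pow_left₀ (by linarith) h4T.le 2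
  -- the number of Reed-Solomon classes
  let j1 : ℕ := ⌊Real.log lam / Real.log 2⌋₊ + 1
  have hlog2 : (0.69 : ℝ) < Real.log 2 := by linarith [Real.log_two_gt_d9]
  have hlog2' : (0 : ℝ) < Real.log 2 := by linarith
  have hj1 : lam ≤ 2 ^ j1 := by
    have h1 : Real.log lam / Real.log 2 < j1 := by
      simp only [j1]; push_cast
      exact Nat.lt_floor_add_one _
    rw [div_lt_iff₀ hlog2'] at h1
    calc lam = exp (Real.log lam) := (Real.exp_log hlam0).symm
      _ ≤ exp (j1 * Real.log 2) := Real.exp_le_exp.mpr h1.le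
      _ = 2 ^ j1 := by rw [Real.exp_nat_mul, Real.exp_log (by norm_num)]
  have hj1' : (j1 : ℝ) ≤ 3 * Real.log lam := by
    simp only [j1]; push_cast
    have h1 := Nat.floor_le (a := Real.log lam / Real.log 2) (by positivity)
    have h2 : Real.log lam / Real.log 2 ≤ 2 * Real.log lam := by
      rw [div_le_iff₀ hlog2']
      nlinarith
    linarith
  choose g hg1 hg2 using fun j => sep_gv (N := N) j (x := x) (lam := lam) (by linarith) hN hx0.le
  let m : ℕ := ⌈T⌉₊
  have hsep := (Sep.small N ⌊T ^ 2⌋₊).or (Sep.range (P := fun j q =>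
      2 ^ j * lam < Real.log q ∧ Real.log q ≤ 2 ^ (j + 1) * lam) (N := N)
      (d := fun j => if j < j1 then ℓ * ℓ else g j) (j1 + m) (by
        intro j _
        split_ifs with h
        · exact sep_rs hlam0 hN hx0.le hℓ h4T hsize
        · exact hg1 j))
  refine ⟨_, hsep.imp ?_, ?_⟩
  · intro q hq hqN
    refine ⟨fun _ => ?_, fun _ => trivial⟩
    rcases le_or_gt q ⌊T ^ 2⌋₊ with h | h
    · exact Or.inl h
    · right
      have hq0 : (0 : ℝ) < q := by exact_mod_cast hq.pos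
      apply exists_dyadic
      · have h1 : T ^ 2 < q := (Nat.floor_lt (by positivity)).mp h
        have h2 : 2 * Real.log T < Real.log q := by
          have := Real.log_lt_log (by positivity) h1
          rwa [Real.log_pow] at this
        have h3 : Real.log T = lam - Real.log lam := by
          rw [hTdef, Real.log_div hx0.ne' hlam0.ne']
        have h4 : 2 * Real.log lam ≤ lam := by
          have h5 : Real.log (√lam) ≤ √lam - 1 :=
            Real.log_le_sub_one_of_pos (Real.sqrt_pos.mpr hlam0)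
          have h6 : Real.log (√lam) = Real.log lam / 2 := Real.log_sqrt hlam0.le
          have h7 : (√lam - 2) ^ 2 ≥ 0 := sq_nonneg _
          have h8 : √lam ^ 2 = lam := Real.sq_sqrt hlam0.le
          nlinarith
        linarith
      · have h1 : (q : ℝ) ≤ exp x := le_trans (by exact_mod_cast hqN) hN
        rw [← Real.log_le_iff_le_exp hq0] at h1
        refine h1.trans ?_
        have h2 : T ≤ 2 ^ (j1 + m) := by
          calc T ≤ m := Nat.le_ceil _
            _ ≤ 2 ^ m := by exact_mod_cast Nat.lt_two_pow_self.le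
            _ ≤ 2 ^ (j1 + m) := pow_le_pow_right₀ (by norm_num) (by omega)
        calc x = T * lam := by rw [hTdef]; field_simp
          _ ≤ _ := by gcongr
  · push_cast
    rw [sum_range_add]
    have h1 : ∑ j ∈ range j1, (if j < j1 then (ℓ : ℝ) * ℓ else g j) ≤ 300 * T ^ 2 * Real.log lam := by
      calc ∑ j ∈ range j1, (if j < j1 then (ℓ : ℝ) * ℓ else g j)
          = ∑ j ∈ range j1, (ℓ : ℝ) * ℓ := by
            refine sum_congr rfl fun j hj => ?_
            rw [if_pos (mem_range.mp hj)]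
        _ = j1 * (ℓ * ℓ) := by simp
        _ ≤ (3 * Real.log lam) * ((10 * T) * (10 * T)) := by gcongr
        _ = _ := by ring
    have h2 : ∑ k ∈ range m, (if j1 + k < j1 then (ℓ : ℝ) * ℓ else g (j1 + k)) ≤ 60 * T ^ 2 := by
      calc ∑ k ∈ range m, (if j1 + k < j1 then (ℓ : ℝ) * ℓ else g (j1 + k))
          ≤ ∑ k ∈ range m, 30 * T ^ 2 * (1 / 2) ^ k := by
            refine sum_le_sum fun k _ => ?_
            rw [if_neg (by omega)]
            refine (hg2 (j1 + k)).trans ?_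
            rw [pow_add, div_le_iff₀ (by positivity)]
            have h3 : (1 / 2 : ℝ) ^ k * 2 ^ k = 1 := by
              rw [← mul_pow]; norm_num
            calc 30 * T ^ 2 * lam ≤ 30 * T ^ 2 * 2 ^ j1 := by gcongr
              _ = 30 * T ^ 2 * 2 ^ j1 * ((1 / 2 : ℝ) ^ k * 2 ^ k) := by rw [h3, mul_one]
              _ = _ := by ring
        _ = 30 * T ^ 2 * ∑ k ∈ range m, (1 / 2 : ℝ) ^ k := by rw [mul_sum]
        _ ≤ 30 * T ^ 2 * 2 := by
            gcongr
            exact sum_geometric_two_le m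
        _ = _ := by ring
    have h3 : (⌊T ^ 2⌋₊ : ℝ) ≤ T ^ 2 := Nat.floor_le (by positivity)
    have h4 : 1 ≤ T ^ 2 := one_le_pow₀ hT1
    have h5 : T ^ 2 ≤ T ^ 2 * Real.log lam := le_mul_of_one_le_right (by positivity) hloglam
    linarith

/-- crude bound -/
lemma sep_crude (N : ℕ) : Sep (fun _ => True) N (6 * (Nat.log 2 N + 1) ^ 3) := by
  let K : ℕ := Nat.log 2 N + 1
  have hM : N + 1 ≤ 2 ^ K := Nat.lt_pow_succ_log_self (by norm_num) N
  obtain ⟨c, hc⟩ := gv_code K K (N + 1) (by simp only [K]; omega) hM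
  have := Sep.of_code (P := fun _ => True) (N := N) (r := K) c hc ?_ ?_ ?_
  · simp only [Fintype.card_fin] at this
    refine this.mono (le_of_eq ?_)
    simp only [K]; ring
  · simp only [Fintype.card_fin]
    apply Nat.mul_lt_mul_of_pos_left _ (by simp only [K]; omega)
    simp only [K]; omega
  · intro q _ _ h; omega
  · intro b hb hbN
    have h2 : {q ∈ (b.primeFactors : Set ℕ) | True} = (b.primeFactors : Set ℕ) := by
      ext x; simp
    rw [h2, Set.ncard_coe_finset]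
    have h3 : 2 ^ b.primeFactors.card ≤ b := by
      calc 2 ^ b.primeFactors.card = ∏ q ∈ b.primeFactors, 2 := by simp
        _ ≤ ∏ q ∈ b.primeFactors, q := prod_le_prod' fun q hq =>
            (Nat.prime_of_mem_primeFactors hq).two_le
        _ ≤ b := Nat.le_of_dvd (Nat.pos_of_ne_zero hb) (Nat.prod_primeFactors_dvd b)
    have h4 : b.primeFactors.card ≤ Nat.log 2 N :=
      Nat.le_log_of_pow_le (by norm_num) (h3.trans hbN)
    simp only [K]; omega

end Pool.Agent.helper18
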