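import Mathlib
import Pool.Agent.helper18.DivMain

set_option autoImplicit false

/-!
From separating systems for primes to Boolean representations of the divisibility order.
-/

namespace Pool.Agent.helper18

open Finset Real

/-- The product of the primes `q` with `q ^ k ∣ b` has `k`-th power dividing `b`. -/
lemma root_part_dvd (b k : ℕ) :
    (∏ q ∈ b.primeFactors.filter (fun q => q ^ k ∣ b), q) ^ k ∣ b := by
  rw [← prod_pow]
  apply Finset.prod_dvd_of_isRelPrime
  · intro p hp q hq hne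
    simp only [coe_filter, Nat.mem_primeFactors, Set.mem_ofPred_eq] at hp hq
    have : (p ^ k).Coprime (q ^ k) :=
      Nat.Coprime.pow _ _ ((Nat.coprime_primes hp.1.1 hq.1.1).mpr hne)
    exact Nat.coprime_iff_isRelPrime.mp this
  · intro q hq
    exact (mem_filter.mp hq).2

lemma exists_boolean_repr (n L : ℕ) (hL : ∀ k, 2 ^ k ≤ n → k ≤ L) (N d : ℕ → ℕ)
    (hN : ∀ i < L, ∀ m, m ^ (i + 1) ≤ n → m ≤ N i)
    (hsep : ∀ i < L, Sep (fun _ => True) (N i) (d i)) :
    ∃ (V : Type) (_ : Fintype V) (φ : ℕ → Set V), Fintype.card V ≤ ∑ i ∈ range L, d i ∧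
      ∀ a b, 1 ≤ a → a ≤ n → 1 ≤ b → b ≤ n → (φ a ⊆ φ b ↔ a ∣ b) := by
  classical
  have hsep' : ∀ i : Fin L, Sep (fun _ => True) (N i) (d i) := fun i => hsep i i.2
  choose V iV S hcard hS using hsep'
  refine ⟨Σ i : Fin L, V i, inferInstance,
    fun b => {v | ∃ q, q.Prime ∧ q ^ (v.1.val + 1) ∣ b ∧ v.2 ∈ S v.1 q}, ?_, ?_⟩
  · rw [Fintype.card_sigma, Finset.sum_range]
    exact sum_le_sum fun i _ => hcard i
  · intro a b ha han hb hbn
    constructor
    · intro hsub
      rw [Nat.dvd_iff_prime_pow_dvd_dvd]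
      intro p k hp hpk
      by_contra hcon
      have hk : k ≠ 0 := by
        rintro rfl
        simp at hcon
      obtain ⟨i, rfl⟩ := Nat.exists_eq_succ_of_ne_zero hk
      rw [Nat.succ_eq_add_one] at *
      have hple : p ^ (i + 1) ≤ a := Nat.le_of_dvd ha hpk
      have hiL : i < L := by
        have : 2 ^ (i + 1) ≤ n :=
          (Nat.pow_le_pow_left hp.two_le _).trans (hple.trans han)
        have := hL _ this
        omega
      set b' : ℕ := ∏ q ∈ b.primeFactors.filter (fun q => q ^ (i + 1) ∣ b), q with hb'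
      have hb'0 : b' ≠ 0 := by
        rw [hb']
        apply prod_ne_zero_iff.mpr
        intro q hq
        exact (Nat.prime_of_mem_primeFactors (mem_filter.mp hq).1).ne_zero
      have hb'N : b' ≤ N i := by
        apply hN i hiL
        exact (Nat.le_of_dvd hb (root_part_dvd b (i + 1))).trans hbn
      have hpb' : ¬ p ∣ b' := by
        intro h
        rw [hb', Prime.dvd_finsetProd_iff (Nat.prime_iff.mp hp)] at h
        obtain ⟨q, hq, hpq⟩ := h
        have hq1 := (mem_filter.mp hq).1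
        have hq2 := (mem_filter.mp hq).2
        rw [(Nat.prime_dvd_prime_iff_eq hp (Nat.prime_of_mem_primeFactors hq1))] at hpq
        exact hcon (hpq ▸ hq2)
      obtain ⟨v, hv, hv'⟩ := hS ⟨i, hiL⟩ p b' trivial hp
        (hN i hiL p (hple.trans han)) hb'0 hb'N hpb'
      have hmem : (⟨⟨i, hiL⟩, v⟩ : Σ i : Fin L, V i) ∈
          {v : Σ i : Fin L, V i | ∃ q, q.Prime ∧ q ^ (v.1.val + 1) ∣ a ∧ v.2 ∈ S v.1 q} :=
        ⟨p, hp, hpk, hv⟩
      obtain ⟨q, hq, hqb, hvq⟩ := hsub hmem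
      refine hv' q ?_ trivial hvq
      rw [Nat.mem_primeFactors]
      refine ⟨hq, ?_, hb'0⟩
      rw [hb']
      apply dvd_prod_of_mem (fun q => q)
      rw [mem_filter, Nat.mem_primeFactors]
      refine ⟨⟨hq, ?_, by omega⟩, hqb⟩
      exact (dvd_pow_self q (by omega)).trans hqb
    · rintro hdvd ⟨i, v⟩ ⟨q, hq, hqa, hv⟩
      exact ⟨q, hq, hqa.trans hdvd, hv⟩

lemma sum_inv_sq_le (L : ℕ) : ∑ i ∈ range L, (1 : ℝ) / ((i : ℝ) + 1) ^ 2 ≤ 2 := by
  have key : ∀ L : ℕ, ∑ i ∈ range (L + 1), (1 : ℝ) / ((i : ℝ) + 1) ^ 2 ≤ 2 - 1 / ((L : ℝ) + 1) := by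
    intro L
    induction L with
    | zero => simp; norm_num
    | succ L ih =>
      rw [sum_range_succ]
      have h1 : (0 : ℝ) < (L : ℝ) + 1 := by positivity
      have h2 : (1 : ℝ) / (((L + 1 : ℕ) : ℝ) + 1) ^ 2 ≤ 1 / ((L : ℝ) + 1) - 1 / ((L : ℝ) + 2) := by
        push_cast
        rw [div_sub_div _ _ (by positivity) (by positivity), div_le_div_iff₀ (by positivity)
          (by positivity)]
        nlinarith
      have h3 : ((L + 1 : ℕ) : ℝ) + 1 = (L : ℝ) + 2 := by push_cast; ring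
      rw [h3] at h2 ⊢
      linarith
  rcases L with _ | L
  · simp
  · have h := key L
    have h1 : (0 : ℝ) < 1 / ((L : ℝ) + 1) := by positivity
    linarith

/-- The cost of one level. -/
lemma level_cost {X Y : ℝ} (hXY : X = Y ^ 4) (hY : exp (exp 1) ≤ Y) (i : ℕ) :
    ∃ d : ℕ, Sep (fun _ => True) ⌊exp (X / ((i : ℝ) + 1))⌋₊ d ∧
      (d : ℝ) ≤ 6400 * (X / Real.log X) ^ 2 * Real.log (Real.log X) * (1 / ((i : ℝ) + 1) ^ 2)
        + 162 * Y ^ 3 := by
  have hee : (2.7 : ℝ) < exp 1 := by linarith [Real.exp_one_gt_d9]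
  have hY2 : (2.7 : ℝ) < Y := by
    have : exp 1 + 1 ≤ exp (exp 1) := Real.add_one_le_exp _
    linarith
  have hY0 : 0 < Y := by linarith
  have hX0 : 0 < X := by rw [hXY]; positivity
  have hi0 : (0 : ℝ) < (i : ℝ) + 1 := by positivity
  have hlogY : exp 1 ≤ Real.log Y := by
    rw [Real.le_log_iff_exp_le hY0]; exact hY
  have hlogX : Real.log X = 4 * Real.log Y := by
    rw [hXY, Real.log_pow]; norm_num
  have hlogX0 : 0 < Real.log X := by rw [hlogX]; linarith
  have hll : 0 < Real.log (Real.log X) := by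
    apply Real.log_pos; rw [hlogX]; linarith
  rcases le_or_gt Y (X / ((i : ℝ) + 1)) with h | h
  · obtain ⟨d, hd1, hd2⟩ := sep_main (x := X / ((i : ℝ) + 1)) (hY.trans h)
      (N := ⌊exp (X / ((i : ℝ) + 1))⌋₊) (Nat.floor_le (exp_pos _).le)
    refine ⟨d, hd1, hd2.trans ?_⟩
    set z : ℝ := X / ((i : ℝ) + 1) with hz
    have hz0 : 0 < z := by positivity
    have hzX : z ≤ X := by
      rw [hz]
      apply div_le_self hX0.le
      linarith [Nat.cast_nonneg (α := ℝ) i]
    have h1 : Real.log X / 4 ≤ Real.log z := by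
      rw [hlogX]
      have := Real.log_le_log hY0 h
      linarith
    have h2 : Real.log z ≤ Real.log X := Real.log_le_log hz0 hzX
    have h3 : Real.log (Real.log z) ≤ Real.log (Real.log X) :=
      Real.log_le_log (by linarith) h2
    have h3' : 0 ≤ Real.log (Real.log z) := by
      apply Real.log_nonneg
      have := Real.log_le_log hY0 h
      linarith
    have h4 : z / Real.log z ≤ 4 * (X / Real.log X) * (1 / ((i : ℝ) + 1)) := by
      have h5 : z / Real.log z ≤ z / (Real.log X / 4) := by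
        apply div_le_div_of_nonneg_left hz0.le (by linarith) h1
      refine h5.trans (le_of_eq ?_)
      rw [hz]
      field_simp
    have h6 : 0 ≤ z / Real.log z := div_nonneg hz0.le (by linarith)
    calc 400 * (z / Real.log z) ^ 2 * Real.log (Real.log z)
        ≤ 400 * (4 * (X / Real.log X) * (1 / ((i : ℝ) + 1))) ^ 2 * Real.log (Real.log X) := by
          gcongr
      _ = 6400 * (X / Real.log X) ^ 2 * Real.log (Real.log X) * (1 / ((i : ℝ) + 1) ^ 2) := by
          field_simp; ring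
      _ ≤ _ := by
          have : 0 ≤ 162 * Y ^ 3 := by positivity
          linarith
  · refine ⟨_, sep_crude _, ?_⟩
    have hlog2 : (0.69 : ℝ) < Real.log 2 := by linarith [Real.log_two_gt_d9]
    have hlog2' : (0 : ℝ) < Real.log 2 := by linarith
    set z : ℝ := X / ((i : ℝ) + 1) with hz
    have hz0 : 0 < z := by positivity
    have h1 : (Nat.log 2 ⌊exp z⌋₊ : ℝ) ≤ z / Real.log 2 := by
      have hfl : ⌊exp z⌋₊ ≠ 0 := by
        have : 1 ≤ ⌊exp z⌋₊ := Nat.le_floor (by simpa using Real.one_le_exp hz0.le)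
        omega
      have h2 := Nat.pow_log_le_self 2 hfl
      have h3 : ((2 : ℝ) ^ (Nat.log 2 ⌊exp z⌋₊)) ≤ exp z := by
        calc ((2 : ℝ) ^ (Nat.log 2 ⌊exp z⌋₊)) ≤ (⌊exp z⌋₊ : ℝ) := by exact_mod_cast h2
          _ ≤ exp z := Nat.floor_le (exp_pos _).le
      rw [le_div_iff₀ hlog2']
      have h4 := Real.log_le_log (by positivity) h3
      rwa [Real.log_pow, Real.log_exp] at h4
    have h5 : z / Real.log 2 + 1 ≤ 3 * Y := by
      have : z / Real.log 2 ≤ Y / 0.69 := by gcongr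
      have h6 : Y / 0.69 ≤ 1.5 * Y := by
        rw [div_le_iff₀ (by norm_num)]; linarith
      linarith
    push_cast
    have h6 : (Nat.log 2 ⌊exp z⌋₊ : ℝ) + 1 ≤ 3 * Y := by linarith
    have h7 : 0 ≤ 6400 * (X / Real.log X) ^ 2 * Real.log (Real.log X) *
        (1 / ((i : ℝ) + 1) ^ 2) := by positivity
    calc 6 * ((Nat.log 2 ⌊exp z⌋₊ : ℝ) + 1) ^ 3 ≤ 6 * (3 * Y) ^ 3 := by gcongr
      _ = 162 * Y ^ 3 := by ring
      _ ≤ _ := by linarith

/-- Boolean representation of the divisibility order on `[n]`, on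
`O((log n / log log n) ^ 2 * log log log n)` points. -/
lemma upper_repr {n : ℕ} {Y : ℝ} (hn : Real.log n = Y ^ 4) (hY : exp (exp 1) ≤ Y)
    (hY2 : 62208 ^ 2 ≤ Y) :
    ∃ (V : Type) (_ : Fintype V) (φ : ℕ → Set V),
      (Fintype.card V : ℝ) ≤ 12801 * (Real.log n / Real.log (Real.log n)) ^ 2 *
        Real.log (Real.log (Real.log n)) ∧
      ∀ a b, 1 ≤ a → a ≤ n → 1 ≤ b → b ≤ n → (φ a ⊆ φ b ↔ a ∣ b) := by
  set X : ℝ := Real.log n with hX
  have hee : (2.7 : ℝ) < exp 1 := by linarith [Real.exp_one_gt_d9]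
  have hY0 : 0 < Y := by linarith
  have hX0 : 0 < X := by rw [hn]; positivity
  have hn0 : n ≠ 0 := by
    rintro rfl
    simp at hX
    linarith
  have hnpos : (0 : ℝ) < n := by positivity
  have hlog2 : (0.69 : ℝ) < Real.log 2 := by linarith [Real.log_two_gt_d9]
  have hlog2' : (0 : ℝ) < Real.log 2 := by linarith
  have hlogY : exp 1 ≤ Real.log Y := by
    rw [Real.le_log_iff_exp_le hY0]; exact hY
  have hlogX : Real.log X = 4 * Real.log Y := by
    rw [hn, Real.log_pow]; norm_num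
  have hlogX0 : 0 < Real.log X := by rw [hlogX]; linarith
  have hll : 1 ≤ Real.log (Real.log X) := by
    rw [Real.le_log_iff_exp_le hlogX0, hlogX]; linarith
  let L : ℕ := Nat.log 2 n
  have hLX : (L : ℝ) * Real.log 2 ≤ X := by
    have h2 := Nat.pow_log_le_self 2 hn0
    have h3 : ((2 : ℝ) ^ (Nat.log 2 n)) ≤ n := by exact_mod_cast h2
    have h4 := Real.log_le_log (by positivity) h3
    rwa [Real.log_pow] at h4
  have hlev : ∀ i : ℕ, ∃ d : ℕ, i < L → (Sep (fun _ => True) ⌊exp (X / ((i : ℝ) + 1))⌋₊ d ∧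
      (d : ℝ) ≤ 6400 * (X / Real.log X) ^ 2 * Real.log (Real.log X) * (1 / ((i : ℝ) + 1) ^ 2)
        + 162 * Y ^ 3) := by
    intro i
    by_cases hi : i < L
    · obtain ⟨d, hd⟩ := level_cost hn hY i
      exact ⟨d, fun _ => hd⟩
    · exact ⟨0, fun h => absurd h hi⟩
  choose d hd using hlev
  obtain ⟨V, iV, φ, hV, hφ⟩ := exists_boolean_repr n L
    (fun k hk => Nat.le_log_of_pow_le (by norm_num) hk)
    (fun i => ⌊exp (X / ((i : ℝ) + 1))⌋₊) d (by
      intro i hi m hm
      rcases Nat.eq_zero_or_pos m with rfl | hm0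
      · exact Nat.zero_le _
      · apply Nat.le_floor
        have hm0' : (0 : ℝ) < m := by exact_mod_cast hm0
        rw [← Real.log_le_iff_le_exp hm0', le_div_iff₀ (by positivity)]
        have h1 : ((m : ℝ) ^ (i + 1)) ≤ n := by exact_mod_cast hm
        have h2 := Real.log_le_log (by positivity) h1
        rw [Real.log_pow] at h2
        push_cast at h2
        linarith) (fun i hi => (hd i hi).1)
  refine ⟨V, iV, φ, ?_, hφ⟩
  have h1 : (Fintype.card V : ℝ) ≤ ∑ i ∈ range L, (d i : ℝ) := by exact_mod_cast hV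
  have h2 : ∑ i ∈ range L, (d i : ℝ) ≤ ∑ i ∈ range L,
      (6400 * (X / Real.log X) ^ 2 * Real.log (Real.log X) * (1 / ((i : ℝ) + 1) ^ 2)
        + 162 * Y ^ 3) :=
    sum_le_sum fun i hi => (hd i (mem_range.mp hi)).2
  have h3 : ∑ i ∈ range L,
      (6400 * (X / Real.log X) ^ 2 * Real.log (Real.log X) * (1 / ((i : ℝ) + 1) ^ 2)
        + 162 * Y ^ 3) ≤ 12800 * (X / Real.log X) ^ 2 * Real.log (Real.log X)
        + L * (162 * Y ^ 3) := by
    rw [sum_add_distrib, ← mul_sum]
    have := sum_inv_sq_le L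
    have h4 : 0 ≤ 6400 * (X / Real.log X) ^ 2 * Real.log (Real.log X) := by positivity
    have h5 := mul_le_mul_of_nonneg_left this h4
    simp only [sum_const, card_range, nsmul_eq_mul]
    linarith
  have h4 : (L : ℝ) * (162 * Y ^ 3) ≤ (X / Real.log X) ^ 2 := by
    have h5 : (L : ℝ) ≤ 1.5 * X := by nlinarith
    have h6 : Real.log Y ≤ 4 * √(√Y) := by
      have h7 : Real.log (√Y) ≤ 2 * √(√Y) := log_le_two_sqrt (Real.sqrt_pos.mpr hY0)
      rw [Real.log_sqrt hY0.le] at h7
      linarith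
    have h8 : Real.log X ^ 2 ≤ 256 * √Y := by
      rw [hlogX]
      have h9 : (4 * Real.log Y) ^ 2 ≤ (4 * (4 * √(√Y))) ^ 2 := by
        apply pow_le_pow_left₀ (by linarith)
        linarith
      refine h9.trans (le_of_eq ?_)
      rw [mul_pow, mul_pow, Real.sq_sqrt (Real.sqrt_nonneg _)]
      ring
    have h10 : (62208 : ℝ) ≤ √Y := by
      rw [show (62208 : ℝ) = √(62208 ^ 2) by rw [Real.sqrt_sq (by norm_num)]]
      exact Real.sqrt_le_sqrt hY2
    have h11 : √Y * √Y = Y := Real.mul_self_sqrt hY0.le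
    rw [div_pow, le_div_iff₀ (by positivity)]
    have hs0 : 0 ≤ √Y := Real.sqrt_nonneg _
    calc (L : ℝ) * (162 * Y ^ 3) * Real.log X ^ 2 ≤ (1.5 * X) * (162 * Y ^ 3) * (256 * √Y) := by
          gcongr
      _ = Y ^ 7 * (62208 * √Y) := by rw [hn]; ring
      _ ≤ Y ^ 7 * (√Y * √Y) := by gcongr
      _ = X ^ 2 := by rw [h11, hn]; ring
  have h5 : (X / Real.log X) ^ 2 ≤ (X / Real.log X) ^ 2 * Real.log (Real.log X) :=
    le_mul_of_one_le_right (by positivity) hll
  linarith

end Pool.Agent.helper18
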